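import Pool.Agent.H13.LN.Targets

/-!
# Weight systems are homomorphisms from the group of chord diagrams (`MP_559314_gt`, row WSC)
-/

set_option autoImplicit false

open Finset

namespace Pool.Agent.H49.LNT

open Pool.Agent.H59.LIN Pool.Agent.H13.LN

theorem gw_perm {d : ℕ} {l l' : List ℕ} (h : l.Perm l') (hl : Gw d l) : Gw d l' := by
  refine ⟨h.length_eq ▸ hl.1, fun a ha => ?_⟩
  rw [← h.count_eq a]
  exact hl.2 a (h.mem_iff.2 ha)

theorem gw_map {d : ℕ} {l : List ℕ} {f : ℕ → ℕ} (hl : Gw d l) (hf : Set.InjOn f {a | a ∈ l}) :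
    Gw d (l.map f) := by
  refine ⟨by rw [List.length_map]; exact hl.1, fun b hb => ?_⟩
  obtain ⟨a, ha, rfl⟩ := List.mem_map.1 hb
  rw [← hl.2 a ha, List.count, List.countP_map, List.count]
  refine List.countP_congr fun x hx => ?_
  simp only [Function.comp, beq_iff_eq]
  exact ⟨fun h => hf hx ha h, fun h => by rw [h]⟩

/-- the value of a homomorphism on a relation -/
theorem rel_zero {d : ℕ} {B : Type} [AddCommGroup B] (φ : Chd d →+ B) {x : GW d →₀ ℤ}
    (hx : Rel d x) : φ (QuotientAddGroup.mk x) = 0 := by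
  have h : (QuotientAddGroup.mk x : Chd d) = 0 :=
    (QuotientAddGroup.eq_zero_iff x).2 (AddSubgroup.subset_closure hx)
  rw [h, map_zero]

open Classical in
/-- the function on words of a homomorphism -/
noncomputable def wf {d : ℕ} {B : Type} [AddCommGroup B] (φ : Chd d →+ B) (l : List ℕ) : B :=
  if h : Gw d l then φ (QuotientAddGroup.mk (Finsupp.single (⟨l, h⟩ : GW d) 1)) else 0

theorem wf_pos {d : ℕ} {B : Type} [AddCommGroup B] (φ : Chd d →+ B) (l : List ℕ) (h : Gw d l) :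
    wf φ l = φ (QuotientAddGroup.mk (Finsupp.single (⟨l, h⟩ : GW d) 1)) := by
  rw [wf, dif_pos h]

theorem mk_sub' {d : ℕ} {B : Type} [AddCommGroup B] (φ : Chd d →+ B) (x y : GW d →₀ ℤ) :
    φ (QuotientAddGroup.mk (x - y)) = φ (QuotientAddGroup.mk x) - φ (QuotientAddGroup.mk y) := by
  rw [QuotientAddGroup.mk_sub, map_sub]

theorem mk_add' {d : ℕ} {B : Type} [AddCommGroup B] (φ : Chd d →+ B) (x y : GW d →₀ ℤ) :
    φ (QuotientAddGroup.mk (x + y)) = φ (QuotientAddGroup.mk x) + φ (QuotientAddGroup.mk y) := by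
  rw [QuotientAddGroup.mk_add, map_add]

theorem wsc : T_WSC := by
  intro d B _
  refine ⟨fun W hW => ?_, fun φ => ⟨wf φ, ?_, fun l => (wf_pos φ l.1 l.2).symm⟩⟩
  · let ψ : (GW d →₀ ℤ) →+ B := Finsupp.liftAddHom fun l : GW d => zmultiplesHom B (W l.1)
    have hψ : ∀ l : GW d, ψ (Finsupp.single l 1) = W l.1 := by
      intro l
      simp [ψ]
    have hker : AddSubgroup.closure {x : GW d →₀ ℤ | Rel d x} ≤ ψ.ker := by
      rw [AddSubgroup.closure_le]
      intro x hx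
      show ψ x = 0
      rcases hx with ⟨l, l', f, hf, h⟩ | ⟨l, l', a, m, h, h'⟩ | ⟨l, A, C, a, h⟩ |
        ⟨l₁, l₂, l₃, l₄, A, C, D, a, b, h₁, h₂, h₃, h₄⟩
      · rw [map_sub, hψ, hψ, h, hW.relab l.1 f l.2 hf, sub_self]
      · rw [map_sub, hψ, hψ, h, h', hW.rot a m (h ▸ l.2), sub_self]
      · rw [hψ, h, hW.isol A C a (h ▸ l.2)]
      · rw [map_sub, map_add, map_sub, hψ, hψ, hψ, hψ, h₁, h₂, h₃, h₄]
        exact hW.four A C D a b (h₁ ▸ l₁.2)
    refine ⟨QuotientAddGroup.lift _ ψ hker, fun l => ?_⟩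
    exact (QuotientAddGroup.lift_mk _ hker _).trans (hψ l)
  · refine ⟨fun l f hl hf => ?_, fun a l hl => ?_, fun A C a hl => ?_, fun A C D a b hl => ?_⟩
    · rw [wf_pos φ l hl, wf_pos φ _ (gw_map hl hf), ← sub_eq_zero, ← mk_sub']
      exact rel_zero φ (Rel.relab ⟨l, hl⟩ ⟨_, gw_map hl hf⟩ f hf rfl)
    · have h' : Gw d (l ++ [a]) := gw_perm (List.perm_append_singleton a l).symm hl
      rw [wf_pos φ _ hl, wf_pos φ _ h', ← sub_eq_zero, ← mk_sub']
      exact rel_zero φ (Rel.rot ⟨_, hl⟩ ⟨_, h'⟩ a l rfl rfl)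
    · rw [wf_pos φ _ hl]
      exact rel_zero φ (Rel.isol ⟨_, hl⟩ A C a rfl)
    · have h₂ : Gw d (A ++ b :: a :: (C ++ a :: D)) :=
        gw_perm (List.Perm.append_left A (List.Perm.swap b a _)) hl
      have h₃ : Gw d (A ++ a :: (C ++ a :: b :: D)) := by
        refine gw_perm (List.Perm.append_left A (List.Perm.cons a ?_)) hl
        have h := (List.perm_middle (l₁ := C ++ [a]) (a := b) (l₂ := D)).symm
        simpa only [List.append_assoc, List.singleton_append] using h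
      have h₄ : Gw d (A ++ a :: (C ++ b :: a :: D)) := by
        refine gw_perm (List.Perm.append_left A (List.Perm.cons a ?_)) hl
        exact (List.perm_middle (l₁ := C) (a := b) (l₂ := a :: D)).symm
      rw [wf_pos φ _ hl, wf_pos φ _ h₂, wf_pos φ _ h₃, wf_pos φ _ h₄, ← mk_sub', ← mk_add',
        ← mk_sub']
      exact rel_zero φ (Rel.four ⟨_, hl⟩ ⟨_, h₂⟩ ⟨_, h₃⟩ ⟨_, h₄⟩ A C D a b rfl rfl rfl rfl)

end Pool.Agent.H49.LNT
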